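import Mathlib
import Pool.Agent.H26.Ultra

set_option autoImplicit false

open Set Topology Filter

namespace Pool.Agent.Results.MP_55c7a7_lc.Free

open Pool.Agent.H26.Ultra

/-- The Rudin–Keisler preorder. -/
def LeRK (u v : Ultrafilter ℕ) : Prop := ∃ f : ℕ → ℕ, v.map f = u

/-- Isomorphism of ultrafilters. -/
def Iso (u v : Ultrafilter ℕ) : Prop := LeRK u v ∧ LeRK v u

/-- Weak P-points (`Ultrafilter ℕ` carries the Stone topology of `βω`). -/
def WeakP (u : Ultrafilter ℕ) : Prop := (∀ n, u ≠ pure n) ∧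
  ∀ F : Set (Ultrafilter ℕ), F.Countable → (∀ w ∈ F, (∀ n, w ≠ pure n) ∧ w ≠ u) → u ∉ closure F

/-- The tensor product `u ⊗ v`, moved to `ℕ` by the bijection `Nat.pair`:
`X ∈ u ⊗ v ↔ {i | {j | pair i j ∈ X} ∈ v} ∈ u`. -/
def tensor (u v : Ultrafilter ℕ) : Ultrafilter ℕ := u.bind fun i => v.map (Nat.pair i)

/-- `word a [b₁, …, bₖ] = a ⊗ (b₁ ⊗ (⋯ ⊗ bₖ))`. -/
def word : Ultrafilter ℕ → List (Ultrafilter ℕ) → Ultrafilter ℕ
  | a, [] => a
  | a, b :: l => tensor a (word b l)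

lemma cancel {a b V W : U} (ha : WeakP a) (hb : WeakP b) (hab : LeRK a b ∨ LeRK b a → a = b)
    (h : Iso (tens a V) (tens b W)) : a = b ∧ Iso V W := by
  obtain ⟨⟨g, hg⟩, f, hf⟩ := h
  let x : ℕ → U := fun n => V.map (f ∘ Nat.pair n)
  let y : ℕ → U := fun m => W.map (Nat.pair m)
  have hxy : a.bind x = b.bind y := hf
  have hS : {k | g (f k) = k} ∈ tens a V :=
    fix_of_map (f := g ∘ f) (by rw [← Ultrafilter.map_map, hf, hg])
  have hA : {n | (x n).map g = V.map (Nat.pair n)} ∈ a :=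
    sup (mem_bind.1 hS) fun n hn => map_congr (u := V) (f := g ∘ f ∘ Nat.pair n) hn
  let P1 : ℕ → ℕ := fun k => k.unpair.1
  have hx2 : {n | (x n).map (P1 ∘ g) = pure n} ∈ a := sup hA fun n hn => by
    rw [mem_setOf_eq, ← Ultrafilter.map_map, hn, row_fst]
  have hy1 : ∀ m, (y m).map P1 = pure m := fun m => row_fst W m
  have e1 : a.bind (fun n => (x n).map P1) = b := by
    rw [← H26.Ultra.map_bind, hxy]; exact tens_fst b W
  have e2 : b.bind (fun m => (y m).map (P1 ∘ g)) = a := by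
    rw [← H26.Ultra.map_bind, ← Ultrafilter.map_map]; exact (congrArg _ hg).trans (tens_fst a V)
  have fin : {n | x n = y n} ∈ a → Iso V W := fun h => by
    obtain ⟨n, h1, h2⟩ := a.nonempty_of_mem (inter h hA)
    refine ⟨⟨(fun k => k.unpair.2) ∘ g ∘ Nat.pair n, ?_⟩, (fun k => k.unpair.2) ∘ f ∘ Nat.pair n, ?_⟩
    · change ((y n).map g).map (fun k => k.unpair.2) = V
      rw [← (h1 : x n = y n), h2, row_snd]
    · change (x n).map (fun k => k.unpair.2) = W
      rw [h1, row_snd]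
  rcases wp_cases hb.2 e1 with ⟨c, hc⟩ | h1
  · have hc' : a.map c = b := (bind_pure' hc).symm.trans e1
    obtain rfl := hab (Or.inr ⟨c, hc'⟩)
    refine ⟨rfl, fin (rows (P := P1) hxy (sup (inter hc (fix_of_map hc')) fun n hn => ?_)
      (univ_mem' (f := (a : Filter ℕ)) hy1))⟩
    exact hn.1.trans (congrArg pure hn.2)
  rcases wp_cases ha.2 e2 with ⟨c, hc⟩ | h2
  · have hc' : b.map c = a := (bind_pure' hc).symm.trans e2
    obtain rfl := hab (Or.inl ⟨c, hc'⟩)
    refine ⟨rfl, fin (rows (P := P1 ∘ g) hxy hx2 (sup (inter hc (fix_of_map hc')) fun n hn => ?_))⟩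
    exact hn.1.trans (congrArg pure hn.2)
  exfalso
  rcases frolik (bind_mem_closure (f := x) (inter h1 hx2)) (hxy ▸ bind_mem_closure (f := y) h2) with
    ⟨n, hn, h⟩ | ⟨m, -, h⟩
  · exact ha.1 n ((map_of_closure h (by rintro _ ⟨m, hm, rfl⟩; exact hm)).symm.trans hn.2)
  · exact hb.1 m ((map_of_closure h (by rintro _ ⟨n, hn, rfl⟩; exact hn.1)).symm.trans (hy1 m))

lemma le_word (a : U) (l : List U) : LeRK a (word a l) := by
  cases l with
  | nil => exact ⟨id, rfl⟩
  | cons b l => exact ⟨_, tens_fst _ _⟩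

lemma single {a b c : U} {l : List U} (ha : WeakP a) (hb : WeakP b) (hc : WeakP c)
    (hab : LeRK a b ∨ LeRK b a → a = b) : ¬ Iso a (word b (c :: l)) := by
  rintro ⟨⟨f, hf⟩, g, hg⟩
  have e : a.map (fun n => Nat.pair n 0) = tens a (pure 0) := rfl
  obtain ⟨-, -, k, hk⟩ := cancel (V := pure 0) (W := word c l) ha hb hab
    ⟨⟨(fun n => Nat.pair n 0) ∘ f, by rw [← e, ← hf]; rfl⟩,
      g ∘ fun k => k.unpair.1, by rw [← Ultrafilter.map_map, tens_fst]; exact hg⟩
  obtain ⟨j, hj⟩ := le_word c l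
  exact hc.1 (j (k 0)) (by rw [← hj, ← hk]; rfl)

theorem result (A : Set (Ultrafilter ℕ)) (hA : ∀ u ∈ A, WeakP u)
    (hinc : ∀ u ∈ A, ∀ v ∈ A, u ≠ v → ¬ LeRK u v)
    (a b : Ultrafilter ℕ) (l m : List (Ultrafilter ℕ)) (hl : ∀ u ∈ a :: l, u ∈ A)
    (hm : ∀ u ∈ b :: m, u ∈ A) (h : Iso (word a l) (word b m)) : a :: l = b :: m := by
  have key : ∀ u ∈ A, ∀ v ∈ A, LeRK u v ∨ LeRK v u → u = v := fun u hu v hv h => by_contra fun hn =>
    h.elim (hinc u hu v hv hn) (hinc v hv u hu (Ne.symm hn))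
  induction l generalizing a b m with
  | nil =>
    cases m with
    | nil => rw [key a (hl a (by simp)) b (hm b (by simp)) (Or.inl h.1)]
    | cons d m =>
      exact absurd h (single (hA a (hl a (by simp))) (hA b (hm b (by simp))) (hA d (hm d (by simp)))
        (key a (hl a (by simp)) b (hm b (by simp))))
  | cons c l ih =>
    cases m with
    | nil =>
      exact absurd h.symm (single (hA b (hm b (by simp))) (hA a (hl a (by simp)))
        (hA c (hl c (by simp))) (key b (hm b (by simp)) a (hl a (by simp))))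
    | cons d m =>
      obtain ⟨h1, h2⟩ := cancel (hA a (hl a (by simp))) (hA b (hm b (by simp)))
        (key a (hl a (by simp)) b (hm b (by simp))) h
      rw [h1, ih c d m (fun u hu => hl u (List.mem_cons_of_mem _ hu))
        (fun u hu => hm u (List.mem_cons_of_mem _ hu)) h2]

end Pool.Agent.Results.MP_55c7a7_lc.Free
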